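import Pool.Agent.Run7.h287.ST.Ahl6

/-!
# An Ahlfors type distortion estimate for the critical self-avoiding walk of the honeycomb lattice

The case `n = 0`, `x = x_c(0) = 1 / √(2 + √2)` of the boundary path of the `O(n)` model. A channel with
axis `e` (a unit vector), base point `o` and profile `f` is the set of the points whose distance from
the axis is at most `f (x)`, `x` the coordinate along the axis. For harmonic measure the theorem of
Ahlfors gives the bound `C exp (- π ∫ dx / (2 f))` for the passage through such a channel, and the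
conjectured conformal covariance of the partition functions of the walk with the boundary
exponent `5/8` predicts the order `exp (- (5 π / 16) ∫ dx / f)` for the partition function of the
walk from the tip of the channel.

**Theorem.** Let `f ≥ 1` be a function with `|f x - f y| ≤ |x - y| / 100`.
(1) The critical weight of the self-avoiding walks which start at the tip of the channel and stop at
height `h` is at most `8 exp (- (1/200) ∫_0^h dx / f)`.
(2) For a wedge `|y| ≤ η x`, `η ≤ 1/100`, this is `8 (e η h)^(- 1 / (200 η))`: the exponents of narrow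
wedges are at least `1/100` divided by the opening `2 η`.
(3) In an arbitrary finite domain `D`, the critical weight of the walks from `p` to `q` which have
a piece that passes through the channel from height `0` to height `h` is at most
`exp (K (log (|D| + 2))² - (1/200) ∫_0^h dx / f)`.

The proof. The starting files (`W818/TD`, `Y655`) show by the parafermionic observable that paths
which cross disjoint blocks of the same size and stay inside of them lose a factor `1/√2` for each
block. This holds for blocks of different sizes as well. A channel with a profile of slope at most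
`1/100` is covered by blocks of size `16 f`, and each of them takes at most `57` of the integral.
For (3) the walk is cut at a last visit and at a first visit, and the number of self-avoiding walks
is estimated by the starting file `HoneycombLogTwo`.
-/

set_option autoImplicit false

namespace Pool.Agent.Results.MP_4960b8_pr.DistortionEstimate

open scoped ENNReal

/-- Adjacency in the honeycomb lattice (brick-wall coordinates). -/
def Nbr (p q : ℤ × ℤ) : Prop :=
  (p.2 = q.2 ∧ (p.1 - q.1 = 1 ∨ q.1 - p.1 = 1)) ∨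
    (p.1 = q.1 ∧ ((q.2 = p.2 + 1 ∧ Even (p.1 + p.2)) ∨ (p.2 = q.2 + 1 ∧ Even (q.1 + q.2))))

/-- The position of the vertices in the plane: the regular honeycomb lattice with edges of length
`1`. -/
noncomputable def pos (p : ℤ × ℤ) : ℂ :=
  ⟨√3 / 2 * p.1, (3 * p.2 - ((p.1 + p.2) % 2 : ℤ)) / 2⟩

/-- The critical fugacity `x_c(0) = 1 / √(2 + √2)`. -/
noncomputable def xc : ℝ≥0∞ := ENNReal.ofReal (1 / √(2 + √2))

/-- The scalar product in the plane. -/
def dot (z w : ℂ) : ℝ := z.re * w.re + z.im * w.im

/-- The signed distance of `z` from the line through `0` with direction `e` (`|e| = 1`). -/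
def off (e z : ℂ) : ℝ := z.im * e.re - z.re * e.im

/-- `f` is the profile of a channel: `f ≥ 1`, with slopes at most `1/100`. -/
def Profile (f : ℝ → ℝ) : Prop := (∀ x, 1 ≤ f x) ∧ ∀ x y, |f x - f y| ≤ |x - y| / 100

/-- `e` is a unit vector and `u` the direction of an edge of the lattice at an angle of at most
`30` degrees with `e` (every unit vector has such a `u`). -/
def Axis (e u : ℂ) : Prop :=
  dot e e = 1 ∧ (∃ v w, Nbr v w ∧ u = pos w - pos v) ∧ √3 / 2 ≤ dot u e

/-- `v` is in the channel with base point `o`, axis `e` and profile `f`. -/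
def InChannel (f : ℝ → ℝ) (e : ℂ) (o v : ℤ × ℤ) : Prop :=
  |off e (pos v - pos o)| ≤ f (dot (pos v - pos o) e)

/-- The height of `v` above `p`, in the direction `u`. -/
noncomputable def height (u : ℂ) (p v : ℤ × ℤ) : ℝ := dot (pos v - pos p) u

/-- The self-avoiding walks from `p` in `D`, stopped at their first vertex of height at least `h`. -/
def Stopped (D : Set (ℤ × ℤ)) (p : ℤ × ℤ) (u : ℂ) (h : ℝ) : Set (List (ℤ × ℤ)) :=
  {l | l.head? = some p ∧ l.Nodup ∧ l.IsChain Nbr ∧ (∀ v ∈ l, v ∈ D) ∧
    (∀ v ∈ l.dropLast, height u p v < h) ∧ ∀ v ∈ l.getLast?, h ≤ height u p v}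

/-- The critical weight of these walks. -/
noncomputable def W (D : Set (ℤ × ℤ)) (p : ℤ × ℤ) (u : ℂ) (h : ℝ) : ℝ≥0∞ :=
  ∑' l : Stopped D p u h, xc ^ (l.1.length - 1)

/-- The wedge `|y| ≤ η x` with apex `p` and axis `e`. -/
def wedge (p : ℤ × ℤ) (e : ℂ) (η : ℝ) : Set (ℤ × ℤ) :=
  {v | |off e (pos v - pos p)| ≤ η * dot (pos v - pos p) e}

/-- The self-avoiding trajectories from `p` to `q` in `D` which have a piece that leads from a vertex
of height at most `0` above `o` to a vertex of height at least `h`, and is in the channel whenever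
its height is between `0` and `h`. -/
def Passing (D : Set (ℤ × ℤ)) (p q : ℤ × ℤ) (f : ℝ → ℝ) (e u : ℂ) (o : ℤ × ℤ) (h : ℝ) :
    Set (List (ℤ × ℤ)) :=
  {l | l.head? = some p ∧ l.getLast? = some q ∧ l.Nodup ∧ l.IsChain Nbr ∧ (∀ v ∈ l, v ∈ D) ∧
    ∃ i j, i ≤ j ∧ j < l.length ∧ height u o (l.getD i 0) ≤ 0 ∧ h ≤ height u o (l.getD j 0) ∧
      ∀ k, i ≤ k → k ≤ j → 0 < height u o (l.getD k 0) → height u o (l.getD k 0) < h →
        InChannel f e o (l.getD k 0)}

/-- The critical weight of these trajectories. -/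
noncomputable def Zpass (D : Set (ℤ × ℤ)) (p q : ℤ × ℤ) (f : ℝ → ℝ) (e u : ℂ) (o : ℤ × ℤ)
    (h : ℝ) : ℝ≥0∞ :=
  ∑' l : Passing D p q f e u o h, xc ^ (l.1.length - 1)

theorem pos_eq (p : ℤ × ℤ) : pos p = H978R2.Hex.pos p := by
  unfold pos H978R2.Hex.pos H978R2.Hex.ht
  push_cast
  rfl

theorem nbr_iff (p q : ℤ × ℤ) : Nbr p q ↔ H978R2.Hex.Adj p q := by
  obtain ⟨a, b⟩ := p
  obtain ⟨x, y⟩ := q
  unfold Nbr H978R2.Hex.Adj
  simp only [Prod.mk_sub_mk, Prod.mk.injEq]
  constructor
  · rintro (⟨h1, h2 | h2⟩ | ⟨h1, ⟨h2, h3⟩ | ⟨h2, h3⟩⟩)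
    · right; left; omega
    · left; omega
    · right; right; left; exact ⟨by omega, h3⟩
    · right; right; right; exact ⟨by omega, h3⟩
  · rintro (h | h | ⟨h, h'⟩ | ⟨h, h'⟩)
    · left; omega
    · left; omega
    · right; exact ⟨by omega, Or.inl ⟨by omega, h'⟩⟩
    · right; exact ⟨by omega, Or.inr ⟨by omega, h'⟩⟩

theorem off_eq (e : ℂ) (o v : ℤ × ℤ) : off e (pos v - pos o) = Run7.h287.ST.cy e o v := by
  unfold off Run7.h287.ST.cy
  rw [pos_eq, pos_eq]

theorem dot_eq (e : ℂ) (o v : ℤ × ℤ) : dot (pos v - pos o) e = Run7.h287.ST.cx e o v := by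
  unfold dot Run7.h287.ST.cx
  rw [pos_eq, pos_eq]

theorem height_eq (v₀ w₀ o v : ℤ × ℤ) : height (pos w₀ - pos v₀) o v =
    (H978R2.Hex.pos v - H978R2.Hex.pos o).re * (H978R2.Hex.pos w₀ - H978R2.Hex.pos v₀).re +
    (H978R2.Hex.pos v - H978R2.Hex.pos o).im * (H978R2.Hex.pos w₀ - H978R2.Hex.pos v₀).im := by
  unfold height dot
  simp only [pos_eq]

theorem part_one (f : ℝ → ℝ) (hf : Profile f) (e u : ℂ) (hu : Axis e u) (D : Set (ℤ × ℤ))
    (p : ℤ × ℤ) (hD : ∀ v ∈ D, v ≠ p → 0 < height u p v) (hD' : ∀ v ∈ D, InChannel f e p v)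
    (h : ℝ) (hh : 4 ≤ h) :
    W D p u h ≤ ENNReal.ofReal (8 * Real.exp (-(1 / 200 * ∫ x in (0 : ℝ)..h, 1 / f x))) := by
  obtain ⟨he, ⟨v₀, w₀, hvw, rfl⟩, hue⟩ := hu
  unfold W xc
  refine Run7.h287.ST.tsum_lists _ _ (fun F hF => ?_)
  refine Run7.h287.ST.ahl hf.1 hf.2 ((nbr_iff _ _).1 hvw) (e := e) ?_ ?_ p h hh F ?_
  · unfold dot at he
    linarith
  · unfold dot at hue
    rw [pos_eq, pos_eq] at hue
    exact hue
  · intro l hl
    obtain ⟨g1, g2, g3, g4, g5, g6⟩ := hF l hl
    refine ⟨g1, g3.imp fun a b hab => (nbr_iff _ _).1 hab, g2, ?_, ?_, ?_⟩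
    · intro v hv
      constructor
      · intro hne
        rw [← height_eq]
        exact hD v (g4 v hv) hne
      · have := hD' v (g4 v hv)
        unfold InChannel at this
        rwa [off_eq, dot_eq] at this
    · intro v hv
      rw [← height_eq]
      exact g5 v hv
    · intro v hv
      rw [← height_eq]
      exact g6 v hv

theorem edge_unit {v w : ℤ × ℤ} (h : Nbr v w) :
    (pos w - pos v).re ^ 2 + (pos w - pos v).im ^ 2 = 1 := by
  have h1 := (Pool.Agent.Y495.QB.adj_iff w v).1 (by
    have := (nbr_iff v w).1 h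
    rw [Pool.Agent.Y495.QB.adj_iff] at this ⊢
    rw [← this]
    unfold Pool.Agent.Y495.QB.N
    ring)
  have h3 : √3 * √3 = 3 := Real.mul_self_sqrt (by norm_num)
  have h4 : ((Pool.Agent.Y495.QB.N w v : ℤ) : ℝ) = 4 := by exact_mod_cast h1
  unfold Pool.Agent.Y495.QB.N at h4
  rw [pos_eq, pos_eq]
  unfold H978R2.Hex.pos
  simp only [Complex.sub_re, Complex.sub_im]
  push_cast at h4
  linear_combination 1 / 4 * h4 + ((w.1 : ℝ) - v.1) ^ 2 / 4 * h3

/-- **Theorem.** Critical self-avoiding walk on the honeycomb lattice.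
(1) Let `f` be a profile, `e` a unit vector and `u` an edge direction at an angle of at most `30`
degrees with `e`, `D` a set of vertices in the channel with base point `p`, axis `e` and profile
`f` such that all vertices of `D` except `p` have a positive height above `p`. For `h ≥ 4` the
critical weight of the self-avoiding walks from `p` in `D` which are stopped at height `h` is at most
`8 exp (- (1/200) ∫_0^h dx / f)`.
(2) In the wedge `|y| ≤ η x`, `η ≤ 1/100`, with apex `p` this weight is at most
`8 (e η h)^(- 1 / (200 η))` for all `h ≥ 1/η`.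
(3) There is `K` such that for all such `f`, `e`, `u`, all `o` and `h ≥ 6`, all finite `D` and all
`p`, `q`, the critical weight of the self-avoiding walks in `D` from `p` to `q` which pass through
the channel with base point `o` from height `0` to height `h` is at most
`exp (K (log (|D| + 2))² - (1/200) ∫_0^h dx / f)`. -/
theorem result :
    (∀ f : ℝ → ℝ, Profile f → ∀ e u : ℂ, Axis e u → ∀ (D : Set (ℤ × ℤ)) (p : ℤ × ℤ),
      (∀ v ∈ D, v ≠ p → 0 < height u p v) → (∀ v ∈ D, InChannel f e p v) → ∀ h : ℝ, 4 ≤ h →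
      W D p u h ≤ ENNReal.ofReal (8 * Real.exp (-(1 / 200 * ∫ x in (0 : ℝ)..h, 1 / f x)))) ∧
    (∀ η : ℝ, 0 < η → η ≤ 1 / 100 → ∀ e u : ℂ, Axis e u → ∀ (p : ℤ × ℤ) (h : ℝ), 1 / η ≤ h →
      W (wedge p e η) p u h ≤ ENNReal.ofReal (8 * (Real.exp 1 * η * h) ^ (-(1 / (200 * η))))) ∧
    ∃ K : ℝ, ∀ f : ℝ → ℝ, Profile f → ∀ e u : ℂ, Axis e u → ∀ (o : ℤ × ℤ) (h : ℝ), 6 ≤ h →
      ∀ (D : Set (ℤ × ℤ)) (p q : ℤ × ℤ), D.Finite →
      Zpass D p q f e u o h ≤ ENNReal.ofReal (Real.exp (K * Real.log (D.ncard + 2) ^ 2 -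
        1 / 200 * ∫ x in (0 : ℝ)..h, 1 / f x)) := by
  refine ⟨part_one, ?_, ?_⟩
  · intro η hη hη1 e u hu p h hh
    rw [← Run7.h287.ST.wedge_power hη hη1 hh]
    have hη' : (100 : ℝ) ≤ 1 / η := by
      rw [le_div_iff₀ hη]
      linarith
    have hu' := hu
    obtain ⟨he, ⟨v₀, w₀, hvw, hu0⟩, hue⟩ := hu'
    refine part_one _ (Run7.h287.ST.wedge_profile hη hη1) e u hu _ p ?_ ?_ h (by linarith)
    · intro v hv hne
      rw [hu0, height_eq]
      have h1 := edge_unit hvw
      rw [pos_eq, pos_eq] at h1
      refine Run7.h287.ST.wedge_half hη hη1 (e := e) ?_ h1 ?_ ?_ hne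
      · unfold dot at he
        linarith
      · rw [hu0] at hue
        unfold dot at hue
        rw [pos_eq, pos_eq] at hue
        exact hue
      · unfold wedge at hv
        rw [Set.mem_ofPred_eq, off_eq, dot_eq] at hv
        exact hv
    · intro v hv
      unfold wedge at hv
      rw [Set.mem_ofPred_eq] at hv
      exact hv.trans (le_max_right _ _)
  · obtain ⟨K, hK, hcount⟩ := Run7.h287.ST.pass_count
    refine ⟨K + 3, fun f hf e u hu o h hh D p q hD => ?_⟩
    obtain ⟨he, ⟨v₀, w₀, hvw, rfl⟩, hue⟩ := hu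
    unfold Zpass xc
    refine Run7.h287.ST.tsum_lists _ _ (fun F hF => ?_)
    obtain ⟨I, hI⟩ : ∃ I, I = ∫ x in (0 : ℝ)..h, 1 / f x := ⟨_, rfl⟩
    rw [← hI]
    have hlen : ∀ l ∈ F, l.length ≤ D.ncard ∧ 1 ≤ l.length := by
      intro l hl
      obtain ⟨g1, -, g3, -, g5, -⟩ := hF l hl
      constructor
      · rw [← List.toFinset_card_of_nodup g3, Set.ncard_eq_toFinset_card D hD]
        apply Finset.card_le_card
        intro v hv
        rw [List.mem_toFinset] at hv
        rw [Set.Finite.mem_toFinset]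
        exact g5 v hv
      · cases l with
        | nil => simp at g1
        | cons a l => simp
    have h1 := Run7.h287.ST.sum_by_length D.ncard F hlen
      (Real.exp (K * Real.log (D.ncard + 2) ^ 2 - 1 / 200 * I)) (by
        intro m hm G hG
        have h2 := hcount f hf.1 hf.2 v₀ w₀ ((nbr_iff _ _).1 hvw) e (by
          unfold dot at he
          linarith) (by
          unfold dot at hue
          rw [pos_eq, pos_eq] at hue
          exact hue) o h hh m p G (by
          intro l hl
          obtain ⟨hlF, hlm⟩ := hG l hl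
          obtain ⟨g1, g2, g3, g4, g5, i, j, hij, hj, g6, g7, g8⟩ := hF l hlF
          refine ⟨⟨hlm, g1, g4.imp fun a b hab => (nbr_iff _ _).1 hab, g3⟩, i, j, hij,
            by omega, ?_, ?_, ?_⟩
          · rw [height_eq] at g6
            exact g6
          · rw [height_eq] at g7
            exact g7
          · intro k hk1 hk2 hk3 hk4
            have h5 := g8 k hk1 hk2 (by rw [height_eq]; exact hk3) (by rw [height_eq]; exact hk4)
            unfold InChannel at h5
            rw [off_eq, dot_eq] at h5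
            exact h5)
        rw [← hI] at h2
        refine h2.trans ?_
        have hmu := Pool.Agent.Y981.QB.mu0_pos
        have h3 : Real.log ((m : ℝ) + 2) ≤ Real.log ((D.ncard : ℝ) + 2) := by
          apply Real.log_le_log (by positivity)
          have : (m : ℝ) ≤ D.ncard := by exact_mod_cast hm.le
          linarith
        have h4 : 0 ≤ Real.log ((m : ℝ) + 2) :=
          Real.log_nonneg (by have : (0 : ℝ) ≤ m := Nat.cast_nonneg m; linarith)
        gcongr)
    refine h1.trans ?_
    obtain ⟨x, hx⟩ : ∃ x, x = Real.log ((D.ncard : ℝ) + 2) := ⟨_, rfl⟩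
    rw [← hx]
    have hm0 : (0 : ℝ) ≤ D.ncard := Nat.cast_nonneg _
    have hexp : Real.exp x = (D.ncard : ℝ) + 2 := by
      rw [hx, Real.exp_log (by linarith)]
    have h2 := Real.log_two_gt_d9
    have hL2 : Real.log 2 ≤ x := by
      rw [hx]
      exact Real.log_le_log (by norm_num) (by linarith)
    have hxx : x ≤ 3 * x ^ 2 := by nlinarith
    calc (D.ncard : ℝ) * Real.exp (K * x ^ 2 - 1 / 200 * I) ≤
        Real.exp x * Real.exp (K * x ^ 2 - 1 / 200 * I) := by
          apply mul_le_mul_of_nonneg_right _ (Real.exp_pos _).le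
          rw [hexp]
          linarith
      _ = Real.exp (x + (K * x ^ 2 - 1 / 200 * I)) := (Real.exp_add _ _).symm
      _ ≤ _ := by
          apply Real.exp_le_exp.2
          nlinarith

end Pool.Agent.Results.MP_4960b8_pr.DistortionEstimate
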