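import Pool.Agent.Run7.h737.ON.Main

/-!
# The path of the O(n) loop model has a spread length, for all `n > 0` and all `x > 0`

`confs D a b`: the configurations of the O(n) model in the domain `D` (a finite set of edges of the
hexagonal lattice) with a path from `a` to `b`: sets of edges such that every vertex has degree `0`
or `2`, except `a` and `b`, which have degree `1`.  `wt n x a ω = x ^ L n ^ M` with `L` the number
of edges and `M` the number of loops (components which do not contain `a`).  `Ex n x D a b f` is
the expectation of `f`.  `path a ω` is the set of the edges of the path, `len a ω` the number of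
its steps.  `FlowerCovered D`: the domain is a union of flowers (a hexagon with its six
neighbours).  `Bump γ γ'`: `γ'` arises from `γ` by replacing two consecutive edges, the only ones
which `γ` has in common with a hexagon, by the four other edges of the hexagon.  `lev a b` is the
distance of the coordinates of `a` and `b`.

**Theorem.**  For all `n > 0` and `x > 0` there is a constant `C` such that in every domain which is
a union of flowers, for all `a`, `b` at distance at least `m`:
(1) except with probability `C exp (- m / C)` the path can be changed by local moves at `m / C`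
hexagons;
(2) `|E F(γ) g(l) - E F(γ) g(l + 2)| ≤ C (1 / √m + η)` for the length `l` of the path `γ`, all
functions `g` with values in `[-1,1]` and all functionals `F` of the path with values in `[-1,1]`
which change by at most `η` under local moves;
(3) `P (l = j) ≤ C / √m` for all `j`;
(4) `E (l - s) ^ 2 ≥ m / C` for all real `s`, if `m ≥ C`;
(5) `|q E [F(γ); l ≡ s mod 2 q] - E [F(γ); l ≡ s mod 2]| ≤ C q ^ 2 (1 / √m + η)`: the length mod
`2 q` becomes uniformly distributed, and asymptotically independent of the curve.
-/

set_option autoImplicit false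

open scoped Classical

namespace Pool.Agent.Results.MP_4960b8_pr.LengthAllN

open Pool.Agent.H737ON

theorem result (n x : ℝ) (hn : 0 < n) (hx0 : 0 < x) : ∃ C : ℝ, 0 < C ∧
    ∀ (D : Finset Ed) (a b : Vx) (m : ℕ), FlowerCovered D → (confs D a b).Nonempty → 1 ≤ m →
      (m : ℤ) ≤ lev a b →
      Ex n x D a b (fun ω => if ∃ S : Finset (ℤ × ℤ), (m : ℝ) / C ≤ S.card ∧
          ∀ t ∈ S, ∃ k : Fin 6,
            path a ω ∩ hex t = {hx t k, hx t (k + 1)} ∨
            path a ω ∩ hex t = hex t \ {hx t k, hx t (k + 1)} then 0 else 1) ≤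
        C * Real.exp (-(m : ℝ) / C) ∧
      (∀ (F : Finset Ed → ℝ) (η : ℝ) (g : ℕ → ℝ), 0 ≤ η → (∀ γ, |F γ| ≤ 1) →
        (∀ γ γ', Bump γ γ' → |F γ - F γ'| ≤ η) → (∀ j, |g j| ≤ 1) →
        |Ex n x D a b (fun ω => F (path a ω) * g (len a ω)) -
          Ex n x D a b (fun ω => F (path a ω) * g (len a ω + 2))| ≤
          C * (1 / √(m : ℝ) + η)) ∧
      (∀ j : ℕ, Ex n x D a b (fun ω => if len a ω = j then 1 else 0) ≤ C / √(m : ℝ)) ∧
      (C ≤ m → ∀ s : ℝ, (m : ℝ) / C ≤ Ex n x D a b (fun ω => ((len a ω : ℝ) - s) ^ 2)) ∧
      (∀ (F : Finset Ed → ℝ) (η : ℝ) (q s : ℕ), 0 ≤ η → (∀ γ, |F γ| ≤ 1) →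
        (∀ γ γ', Bump γ γ' → |F γ - F γ'| ≤ η) → 1 ≤ q →
        |q * Ex n x D a b (fun ω => if len a ω ≡ s [MOD 2 * q] then F (path a ω) else 0) -
          Ex n x D a b (fun ω => if len a ω ≡ s [MOD 2] then F (path a ω) else 0)| ≤
          C * q ^ 2 * (1 / √(m : ℝ) + η)) :=
  main n x hn hx0

end Pool.Agent.Results.MP_4960b8_pr.LengthAllN
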