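import Pool.Agent.Run7.h106.AY.Fin

/-!
The path of the O(0) model on the honeycomb lattice in discrete domains, between two given points, at
the critical point `xc` and slightly above it: the characteristic function of the number `l` of steps
of the path decays exponentially in the length, also jointly with what the path does at up to
`1 / (C δ)` given vertices.
-/

set_option autoImplicit false

namespace Pool.Agent.Results.MP_4960b8_pr.LengthCharacteristicFunction

/-- Adjacency in the honeycomb lattice (brick-wall coordinates). -/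
def Nbr (p q : ℤ × ℤ) : Prop :=
  (p.2 = q.2 ∧ (p.1 - q.1 = 1 ∨ q.1 - p.1 = 1)) ∨
    (p.1 = q.1 ∧ ((q.2 = p.2 + 1 ∧ Even (p.1 + p.2)) ∨ (p.2 = q.2 + 1 ∧ Even (q.1 + q.2))))

/-- The self-avoiding trajectories from `a` to `b` in `D`, as lists of vertices. -/
def Traj (D : Set (ℤ × ℤ)) (a b : ℤ × ℤ) : Set (List (ℤ × ℤ)) :=
  {l | l.head? = some a ∧ l.getLast? = some b ∧ l.Nodup ∧ l.IsChain Nbr ∧ ∀ p ∈ l, p ∈ D}

/-- The critical point `xc(0) = 1 / √(2 + √2)`. -/
noncomputable def xc : ℝ := 1 / Real.sqrt (2 + Real.sqrt 2)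

/-- The number of steps of a path given by the list of its vertices. -/
def steps (l : List (ℤ × ℤ)) : ℕ := l.length - 1

/-- The partition function: the sum of `x ^ (number of steps)` over the trajectories. -/
noncomputable def Z (x : ℝ) (D : Set (ℤ × ℤ)) (a b : ℤ × ℤ) : ℝ :=
  ∑ᶠ l ∈ Traj D a b, x ^ steps l

/-- The mean value of `F` for the path of the O(0) model in `D` from `a` to `b`. -/
noncomputable def mean (x : ℝ) (D : Set (ℤ × ℤ)) (a b : ℤ × ℤ) (F : List (ℤ × ℤ) → ℝ) : ℝ :=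
  (∑ᶠ l ∈ Traj D a b, x ^ steps l * F l) / Z x D a b

/-- The position of the vertices in the plane: the honeycomb lattice with unit edge length (`Nbr p q`
if and only if the points `emb p` and `emb q` have distance `1`). -/
noncomputable def emb (v : ℤ × ℤ) : ℂ :=
  ⟨Real.sqrt 3 / 2 * v.1, 3 / 2 * v.2 + if Even (v.1 + v.2) then 1 / 2 else 0⟩

/-- The coordinate in the direction `u = exp (- i π / 6)`, one of the directions of the edges. -/
noncomputable def lv (z : ℂ) : ℝ := (Real.sqrt 3 * z.re - z.im) / 2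

/-- The open half-disc with centre `a` and radius `r` on the side `ε u` of `a` (`ε = 1` or
`ε = -1`). -/
def HD (a : ℂ) (ε r : ℝ) : Set ℂ := {z | ‖z - a‖ < r ∧ 0 < ε * (lv z - lv a)}

/-- The vertices in the half-disc (with its diameter) with centre `δ p` and radius `r`, on the
side `ε u` of `p`, for the lattice with mesh `δ`. -/
def Hd (δ ε r : ℝ) (p : ℤ × ℤ) : Set (ℤ × ℤ) :=
  {v | ‖(δ : ℂ) * emb v - δ * emb p‖ < r ∧ 0 ≤ ε * (lv (emb v) - lv (emb p))}

/-- `p` is the lattice point with an edge in the direction `- ε u`: a boundary vertex of a half-plane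
on the side `ε u`. -/
def Bd (ε : ℝ) (p : ℤ × ℤ) : Prop :=
  (ε = 1 ∧ Odd (p.1 + p.2)) ∨ (ε = -1 ∧ Even (p.1 + p.2))

/-- Every vertex outside `D` has two neighbours outside `D` (for example: the complement of `D` is a
union of hexagons). -/
def Closed (D : Set (ℤ × ℤ)) : Prop :=
  ∀ v, v ∉ D → ∃ u u', u ≠ u' ∧ Nbr v u ∧ Nbr v u' ∧ u ∉ D ∧ u' ∉ D

/-- `F` does not change when a piece of two steps of a trajectory is replaced by a piece of four
steps with the same end points and both pieces avoid the set `Q`. -/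
def Invariant (D : Set (ℤ × ℤ)) (a b : ℤ × ℤ) (Q : Finset (ℤ × ℤ)) (F : List (ℤ × ℤ) → ℝ) : Prop :=
  ∀ L U U' R : List (ℤ × ℤ), U.length = 3 → U'.length = 5 → U.head? = U'.head? →
    U.getLast? = U'.getLast? → (∀ v ∈ U ++ U', v ∉ Q) → L ++ U ++ R ∈ Traj D a b →
    L ++ U' ++ R ∈ Traj D a b → F (L ++ U' ++ R) = F (L ++ U ++ R)

/-- **Theorem.** Let `W` be a connected open set of the plane, `a ≠ b` points such that `W` contains
a half-disc with centre `a` on the side `ε u` and a half-disc with centre `b` on the side `ε' u`, and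
`M` a real number.  There are a compact set `K` contained in `W` and `C ≥ 1` such that for every mesh
`δ ≤ 1 / C`, every closed set `D` of vertices such that `δ D` lies in the disc of radius `M`, all
vertices `p` and `q` with the parities of boundary vertices of half-planes on the sides `ε u` and
`ε' u` and with `δ p` and `δ q` at distance at most `1 / C` of `a` and `b`, such that `D` contains the
vertices of `K` and the half-discs of `p` and `q`, and every `x` with `xc ≤ x ≤ 0.544`, the path `γ`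
of the O(0) model with parameter `x` in `D` from `p` to `q`, with `l` steps, satisfies:
(0) `l ≥ 1 / (C δ)`; for every set `Q` of at most `1 / (C δ)` vertices, every functional `F` of the
path with values in `[0,1]` which is invariant under local changes outside `Q` and all real `t`, `s`:
(1) `|E [F(γ) cos (t l + s)]| ≤ 2 E [F(γ) exp (- l sin² t / C)] + C exp (-1 / (C δ))`;
(2) `|E [F(γ) cos (t l + s)]| ≤ (2 + C) exp (- sin² t / (C² δ))`. -/
theorem result (W : Set ℂ) (hW : IsOpen W) (hc : IsConnected W) (a b : ℂ) (hab : a ≠ b)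
    (ε ε' : ℝ) (hε : ε = 1 ∨ ε = -1) (hε' : ε' = 1 ∨ ε' = -1) (ρ : ℝ) (hρ : 0 < ρ)
    (ha : HD a ε ρ ⊆ W) (hb : HD b ε' ρ ⊆ W) (M : ℝ) :
    ∃ K : Set ℂ, K ⊆ W ∧ IsCompact K ∧ ∃ C : ℝ, 1 ≤ C ∧
      ∀ δ : ℝ, 0 < δ → C * δ ≤ 1 →
      ∀ (D : Set (ℤ × ℤ)) (p q : ℤ × ℤ), Bd ε p → Bd ε' q →
      C * ‖(δ : ℂ) * emb p - a‖ ≤ 1 → C * ‖(δ : ℂ) * emb q - b‖ ≤ 1 →
      (∀ v : ℤ × ℤ, (δ : ℂ) * emb v ∈ K → v ∈ D) → Hd δ ε ρ p ⊆ D → Hd δ ε' ρ q ⊆ D →
      (∀ v ∈ D, ‖(δ : ℂ) * emb v‖ ≤ M) → Closed D → ∀ x : ℝ, xc ≤ x → x ≤ 544 / 1000 →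
      (Traj D p q).Finite ∧ 0 < Z x D p q ∧ (∀ l ∈ Traj D p q, 1 ≤ C * δ * (steps l : ℝ)) ∧
      ∀ (Q : Finset (ℤ × ℤ)) (F : List (ℤ × ℤ) → ℝ) (t s : ℝ), C * δ * Q.card ≤ 1 →
        (∀ l ∈ Traj D p q, 0 ≤ F l ∧ F l ≤ 1) → Invariant D p q Q F →
        |mean x D p q (fun l => F l * Real.cos (t * steps l + s))| ≤
          2 * mean x D p q (fun l => F l * Real.exp (-(Real.sin t ^ 2 * steps l / C))) +
          C * Real.exp (-(1 / (C * δ))) ∧
        |mean x D p q (fun l => F l * Real.cos (t * steps l + s))| ≤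
          (2 + C) * Real.exp (-(Real.sin t ^ 2 / (C ^ 2 * δ))) := by
  obtain ⟨K, hK, hKc, C, hC, h⟩ := Run7.h106.AY.chF W hW hc a b hab ε ε' hε hε' ρ hρ ha hb M
  refine ⟨K, hK, hKc, C, hC, ?_⟩
  intro δ hδ hCδ D p q hp hq hpa hqb hKD hpD hqD hDM hcl x hx hx'
  obtain ⟨f1, f2, f3, f4⟩ := h δ hδ hCδ D p q hp hq hpa hqb hKD hpD hqD hDM hcl x hx hx'
  refine ⟨f1, f2, f3, fun Q F t s hQ hF hI => ?_⟩
  have h1 : |mean x D p q (fun l => F l * Real.cos (t * steps l + s))| ≤
      2 * mean x D p q (fun l => F l * Real.exp (-(Real.sin t ^ 2 * steps l / C))) +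
      C * Real.exp (-(1 / (C * δ))) := f4 Q F t s hQ hF hI
  refine ⟨h1, h1.trans ?_⟩
  have hC0 : 0 < C := by linarith
  have hx0 : 0 ≤ x := by
    refine le_trans ?_ hx
    unfold xc
    positivity
  have hmean : ∀ G : List (ℤ × ℤ) → ℝ, mean x D p q G =
      (∑ l ∈ f1.toFinset, x ^ steps l * G l) / ∑ l ∈ f1.toFinset, x ^ steps l := by
    intro G
    exact Pool.Agent.R131.LT.Mx_eq x f1 G
  have hZ : 0 < ∑ l ∈ f1.toFinset, x ^ steps l := by
    have e : Z x D p q = ∑ l ∈ f1.toFinset, x ^ steps l := by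
      unfold Z
      exact finsum_mem_eq_finite_toFinset_sum _ f1
    have f2' : 0 < Z x D p q := f2
    rwa [e] at f2'
  have hs0 : 0 ≤ Real.sin t ^ 2 := sq_nonneg _
  have hs1 := Real.sin_sq_le_one t
  have h2 : mean x D p q (fun l => F l * Real.exp (-(Real.sin t ^ 2 * steps l / C))) ≤
      Real.exp (-(Real.sin t ^ 2 / (C ^ 2 * δ))) := by
    rw [hmean, div_le_iff₀ hZ, Finset.mul_sum]
    refine Finset.sum_le_sum fun l hl => ?_
    rw [Set.Finite.mem_toFinset] at hl
    rw [mul_comm (Real.exp _)]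
    refine mul_le_mul_of_nonneg_left ?_ (pow_nonneg hx0 _)
    obtain ⟨b1, b2⟩ := hF l hl
    have h3 : 1 ≤ C * δ * (steps l : ℝ) := f3 l hl
    have h4 : Real.sin t ^ 2 / (C ^ 2 * δ) ≤ Real.sin t ^ 2 * steps l / C := by
      rw [div_le_div_iff₀ (by positivity) hC0]
      have := mul_le_mul_of_nonneg_left h3 (mul_nonneg hs0 hC0.le)
      calc Real.sin t ^ 2 * C = Real.sin t ^ 2 * C * 1 := by ring
        _ ≤ Real.sin t ^ 2 * C * (C * δ * (steps l : ℝ)) := this
        _ = _ := by ring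
    calc F l * Real.exp (-(Real.sin t ^ 2 * steps l / C))
        ≤ 1 * Real.exp (-(Real.sin t ^ 2 / (C ^ 2 * δ))) :=
          mul_le_mul b2 (Real.exp_le_exp.2 (neg_le_neg h4)) (Real.exp_pos _).le zero_le_one
      _ = _ := one_mul _
  have h5 : Real.exp (-(1 / (C * δ))) ≤ Real.exp (-(Real.sin t ^ 2 / (C ^ 2 * δ))) := by
    refine Real.exp_le_exp.2 (neg_le_neg ?_)
    rw [div_le_div_iff₀ (by positivity) (by positivity)]
    have h6 : Real.sin t ^ 2 * (C * δ) ≤ 1 * (C * δ) :=
      mul_le_mul_of_nonneg_right hs1 (by positivity)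
    have h7 : C * δ ≤ C ^ 2 * δ := by
      refine mul_le_mul_of_nonneg_right ?_ hδ.le
      nlinarith
    linarith
  have h6 := mul_le_mul_of_nonneg_left h5 hC0.le
  linarith

end Pool.Agent.Results.MP_4960b8_pr.LengthCharacteristicFunction
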