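import Pool.Agent.Run7.h822.WN.Dom

/-!
# The winding of the path of the `O(n)` model of the hexagonal lattice for `n = 0`

The problem: the configurations of the `O(n)` model in a discrete domain `D` of the hexagonal
lattice with mesh `δ` consist of a self-avoiding path from `p` (near `a`) to `q` (near `b`) and `M`
disjoint closed loops, and have weight `x ^ L * n ^ M`, `L` the number of edges, `0 ^ 0 = 1`. Q1
concerns the law of the path for `0 ≤ n ≤ 2` and `x = x_c(n) = (2 + (2 - n) ^ (1/2)) ^ (-1/2)`. Here
`n = 0`, `κ = 8/3`.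

The *winding angle* of a piece of the path around a vertex `P` which is not on it is the sum of the
angles at which its steps are seen from `P`; the *total turning* of a piece is the sum of the angles
between its successive steps, each of them `π / 3` to the left or to the right; this is the winding
in the parafermionic observable. A path with `m` steps can have winding angles and turnings of the
order `√m`, here up to `1 / δ` (spirals). For `SLE (8/3)` the winding at the scale `δ` is of the
order `√(log (1/δ))`.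

**Theorem.** For `n = 0` and `x = x_c(0)`, with probability at least `1 - e^(-t)` all winding angles
around all vertices and all turnings of all pieces of the path `γ_δ` are at most
`C ((log (1/δ))² + t)`. The domains are the discretisations of connected open sets with `a`, `b`
interior points or boundary points at which the boundary is a segment orthogonal to a fixed
direction of edges.

The proof is `Run7.h822.WN.domain_winding` (helper822, first handed in as
`MP_f5481b_pr.WindingInDomains` for the self-avoiding walk).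
-/

set_option autoImplicit false

namespace Pool.Agent.Results.MP_4960b8_pr.PathWinding

open Finset
open scoped ENNReal
open Pool.Agent.Results.MP_f5481b_pr.DomainTwoPoint (Nbr Traj emb lv HD Hd Bd)

/-- `E` is the set of the edges of a closed self-avoiding loop with vertices in `D`. -/
def IsLoop (D : Set (ℤ × ℤ)) (E : Finset (Sym2 (ℤ × ℤ))) : Prop :=
  ∃ (k : ℕ) (v : ℕ → ℤ × ℤ), 3 ≤ k ∧ (∀ i < k, ∀ j < k, v i = v j → i = j) ∧ v k = v 0 ∧
    (∀ i < k, v i ∈ D ∧ Nbr (v i) (v (i + 1))) ∧
    E = (range k).image (fun i => s(v i, v (i + 1)))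

/-- A configuration of the `O(n)` model in `D` with end points `p`, `q`: a self-avoiding path from `p`
to `q` and a finite set of closed loops, such that no vertex lies on two of these curves. -/
structure Config (D : Set (ℤ × ℤ)) (p q : ℤ × ℤ) where
  /-- the path -/
  path : Traj D p q
  /-- the loops, given by their edges -/
  loops : Finset (Finset (Sym2 (ℤ × ℤ)))
  isLoop : ∀ E ∈ loops, IsLoop D E
  disjoint : ∀ E ∈ loops, ∀ E' ∈ loops, E ≠ E' → ∀ e ∈ E, ∀ e' ∈ E', ∀ v, v ∈ e → v ∉ e'
  disjoint_path : ∀ E ∈ loops, ∀ e ∈ E, ∀ v ∈ path.1, v ∉ e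

/-- The number `L` of edges of a configuration. -/
def Config.edges {D : Set (ℤ × ℤ)} {p q : ℤ × ℤ} (c : Config D p q) : ℕ :=
  (c.path.1.length - 1) + ∑ E ∈ c.loops, E.card

/-- The weight `x ^ L * n ^ M` of a configuration. -/
noncomputable def weight (n x : ℝ) {D : Set (ℤ × ℤ)} {p q : ℤ × ℤ} (c : Config D p q) : ℝ≥0∞ :=
  ENNReal.ofReal x ^ c.edges * ENNReal.ofReal n ^ c.loops.card

/-- The critical value `x_c(n)`. -/
noncomputable def xcrit (n : ℝ) : ℝ := (2 + (2 - n) ^ (1 / 2 : ℝ)) ^ (-1 / 2 : ℝ)

open Classical in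
/-- The total weight of the configurations whose path has the property `A`; divided by the total
weight `mass n x D p q fun _ => True` this is the probability that `γ_δ` has the property `A`. -/
noncomputable def mass (n x : ℝ) (D : Set (ℤ × ℤ)) (p q : ℤ × ℤ) (A : List (ℤ × ℤ) → Prop) :
    ℝ≥0∞ :=
  ∑' c : Config D p q, if A c.path.1 then weight n x c else 0

/-- The vertex of the path `l` at time `i`. -/
def vertex (l : List (ℤ × ℤ)) (i : ℕ) : ℤ × ℤ := l.getD i 0

/-- The winding angle of the piece of `l` between the times `s` and `t` around the vertex `P`. -/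
noncomputable def winding (l : List (ℤ × ℤ)) (P : ℤ × ℤ) (s t : ℕ) : ℝ :=
  ∑ i ∈ Ico s t, Complex.arg ((emb (vertex l (i + 1)) - emb P) / (emb (vertex l i) - emb P))

/-- The total turning of the piece of `l` between the times `s` and `t`. -/
noncomputable def turning (l : List (ℤ × ℤ)) (s t : ℕ) : ℝ :=
  ∑ i ∈ Ico (s + 1) t, Complex.arg ((emb (vertex l (i + 1)) - emb (vertex l i)) /
    (emb (vertex l i) - emb (vertex l (i - 1))))

/-- The absolute values of the turnings of all pieces of `l`, and of the winding angles of all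
pieces around all vertices which are not on the piece, are at most `y`. -/
def WindsAtMost (l : List (ℤ × ℤ)) (y : ℝ) : Prop :=
  ∀ s t : ℕ, s ≤ t → t < l.length → |turning l s t| ≤ y ∧
    ∀ P : ℤ × ℤ, (∀ i, s ≤ i → i ≤ t → vertex l i ≠ P) → |winding l P s t| ≤ y

lemma xcrit_zero : ENNReal.ofReal (xcrit 0) = Pool.Agent.Results.MP_f5481b_pr.DomainTwoPoint.xc := by
  unfold xcrit Pool.Agent.Results.MP_f5481b_pr.DomainTwoPoint.xc
  congr 1
  have h2 : (0 : ℝ) ≤ 2 + Real.sqrt 2 := by positivity
  have e : (-1 / 2 : ℝ) = -(1 / 2) := by norm_num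
  rw [sub_zero, ← Real.sqrt_eq_rpow, e, Real.rpow_neg h2, ← Real.sqrt_eq_rpow, one_div]

open Classical in
/-- For `n = 0` only the configurations without loops count. -/
lemma mass_zero (x : ℝ) (D : Set (ℤ × ℤ)) (p q : ℤ × ℤ) (A : List (ℤ × ℤ) → Prop) :
    mass 0 x D p q A =
      ∑' l : Traj D p q, if A l.1 then ENNReal.ofReal x ^ (l.1.length - 1) else 0 := by
  let f : Traj D p q → Config D p q := fun l =>
    ⟨l, ∅, by simp, by simp, by simp⟩
  have hf : Function.Injective f := by
    intro a b h
    have := congrArg Config.path h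
    exact this
  unfold mass
  rw [← hf.tsum_eq (f := fun c : Config D p q => if A c.path.1 then weight 0 x c else 0)]
  · refine tsum_congr fun l => ?_
    simp [f, weight, Config.edges]
  · intro c hc
    rw [Function.mem_support] at hc
    have h0 : c.loops = ∅ := by
      by_contra hne
      have : c.loops.card ≠ 0 := by
        rw [Ne, Finset.card_eq_zero]; exact hne
      apply hc
      simp [weight, this]
    refine ⟨c.path, ?_⟩
    obtain ⟨path, loops, h1, h2, h3⟩ := c
    simp only at h0
    subst h0
    rfl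

/-- **Theorem.** `n = 0`, `x = x_c(0)`. Let `Ω` be a connected open set of the plane, `a ≠ b` points
such that `Ω` contains a half-disc with centre `a` on the side `ε u` and a half-disc with centre `b`
on the side `ε' u` (for instance interior points of `Ω`, or boundary points at which the boundary is
a segment orthogonal to `u`), and `R > 0`. There are a compact set `K` contained in `Ω` and `C ≥ 1`
such that for every mesh `δ ≤ 1 / C`, all boundary vertices `p` and `q` with `δ p` and `δ q` at
distance at most `1 / C` of `a` and `b`, and every set `D` of vertices in the disc with radius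
`R / δ` which contains the vertices of `K` and the half-discs of the vertices `p` and `q`: the
partition function of the `O(n)` configurations is positive and finite, and for every `t ≥ 0`, with
probability at least `1 - e^(-t)` all winding angles around all vertices and all turnings of all
pieces of the path are at most `C ((log (1/δ))² + t)`. -/
theorem result (Ω : Set ℂ) (hΩ : IsOpen Ω) (hc : IsConnected Ω) (a b : ℂ) (hab : a ≠ b)
    (ε ε' : ℝ) (hε : ε = 1 ∨ ε = -1) (hε' : ε' = 1 ∨ ε' = -1) (r R : ℝ) (hr : 0 < r)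
    (ha : HD a ε r ⊆ Ω) (hb : HD b ε' r ⊆ Ω) :
    ∃ K : Set ℂ, K ⊆ Ω ∧ IsCompact K ∧ ∃ C : ℝ, 1 ≤ C ∧ ∀ δ : ℝ, 0 < δ → C * δ ≤ 1 →
      ∀ (D : Set (ℤ × ℤ)) (p q : ℤ × ℤ), Bd ε p → Bd ε' q →
      C * ‖(δ : ℂ) * emb p - a‖ ≤ 1 → C * ‖(δ : ℂ) * emb q - b‖ ≤ 1 →
      (∀ v : ℤ × ℤ, (δ : ℂ) * emb v ∈ K → v ∈ D) → Hd δ ε r p ⊆ D → Hd δ ε' r q ⊆ D →
      (∀ v ∈ D, ‖(δ : ℂ) * emb v‖ ≤ R) →
      mass 0 (xcrit 0) D p q (fun _ => True) ≠ 0 ∧ mass 0 (xcrit 0) D p q (fun _ => True) ≠ ⊤ ∧
        ∀ t : ℝ, 0 ≤ t →
          mass 0 (xcrit 0) D p q (fun l => ¬ WindsAtMost l (C * (Real.log (1 / δ) ^ 2 + t))) ≤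
            ENNReal.ofReal (Real.exp (-t)) * mass 0 (xcrit 0) D p q (fun _ => True) := by
  obtain ⟨K, hK, hKc, C, hC, H⟩ :=
    Run7.h822.WN.domain_winding Ω hΩ hc a b hab ε ε' hε hε' r R hr ha hb
  refine ⟨K, hK, hKc, C, hC, ?_⟩
  intro δ hδ hδC D p q hp hq hpa hqb hKD h1 h2 hR
  obtain ⟨hz, ht, hw⟩ := H δ hδ hδC D p q hp hq hpa hqb hKD h1 h2 hR
  have hZ : mass 0 (xcrit 0) D p q (fun _ => True) =
      Pool.Agent.Results.MP_f5481b_pr.DomainTwoPoint.Z D p q := by
    rw [mass_zero, xcrit_zero]
    simp [Pool.Agent.Results.MP_f5481b_pr.DomainTwoPoint.Z]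
  rw [hZ]
  refine ⟨hz, ht, fun t ht0 => ?_⟩
  refine le_trans (le_of_eq ?_) (hw t ht0)
  rw [mass_zero, xcrit_zero]
  unfold Run7.h822.WN.Zbad
  refine tsum_congr fun l => ?_
  have hi : WindsAtMost l.1 (C * (Real.log (1 / δ) ^ 2 + t)) ↔
      Run7.h822.WN.Straight l.1 (C * (Real.log (1 / δ) ^ 2 + t)) := Iff.rfl
  by_cases h : Run7.h822.WN.Straight l.1 (C * (Real.log (1 / δ) ^ 2 + t))
  · rw [if_pos h, if_neg (not_not.2 (hi.2 h))]
  · rw [if_neg h, if_pos (fun h' => h (hi.1 h'))]

end Pool.Agent.Results.MP_4960b8_pr.PathWinding
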